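import Mathlib

namespace Pool.Agent.Results.MP_8dcfbf_co.Counter

/-- One step: attach at either end the sum of a non-empty block of consecutive terms. -/
def Step (d e : List ℕ) : Prop :=
  ∃ blk : List ℕ, blk ≠ [] ∧ blk <:+: d ∧ (e = blk.sum :: d ∨ e = d ++ [blk.sum])

/-- regular type B sequences -/
def Reg (d : List ℕ) : Prop := d = [1] ∨ Relation.ReflTransGen Step [1, 1] d

/-- least length of a regular type B sequence having a permutation of `ks` as a subsequence -/
noncomputable def b (ks : List ℕ) : ℕ :=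
  sInf {n | ∃ d, Reg d ∧ d.length = n ∧ ∃ p : List ℕ, p.Perm ks ∧ p.Sublist d}

def sums (d : List ℕ) : List ℕ := (d.tails.flatMap List.inits).map List.sum

def miss (d : List ℕ) : ℕ := (if 57 ∈ d then 0 else 1) + (if 62 ∈ d then 0 else 1)

def chk : ℕ → List ℕ → Bool
  | 0, d => decide (0 < miss d)
  | k + 1, d => decide (k + 1 < miss d) || decide (d.length ≤ 7 ∧ d.sum * 2 ^ (7 - d.length) < 57) ||
      (decide (0 < miss d) && (sums d).all fun s => chk k (s :: d) && chk k (d ++ [s]))

lemma step_len {d e : List ℕ} (h : Step d e) : e.length = d.length + 1 := by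
  obtain ⟨_, _, _, rfl | rfl⟩ := h <;> simp

lemma step_miss {d e : List ℕ} (h : Step d e) : miss d ≤ miss e + 1 := by
  obtain ⟨blk, _, _, rfl | rfl⟩ := h <;> generalize blk.sum = s <;>
    simp only [miss, List.mem_cons, List.mem_append, List.not_mem_nil, or_false] <;>
    split_ifs <;> first | omega | (exfalso; simp only [not_or] at *; tauto) | (simp_all; omega)

lemma rtg_miss {d e : List ℕ} (h : Relation.ReflTransGen Step d e) :
    d.length ≤ e.length ∧ miss d ≤ miss e + (e.length - d.length) := by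
  induction h with
  | refl => simp
  | tail _ s ih => have := step_len s; have := step_miss s; omega

lemma step_sum {d e : List ℕ} (h : Step d e) : ∃ s, s ≤ d.sum ∧ e.sum = d.sum + s ∧
    ∀ x ∈ e, x ∈ d ∨ x = s := by
  obtain ⟨blk, _, hb, he⟩ := h
  refine ⟨blk.sum, hb.sublist.sum_le_sum (by simp), ?_, ?_⟩
  · rcases he with rfl | rfl <;> simp [add_comm]
  · rcases he with rfl | rfl <;> simp <;> tauto

lemma rtg_small {d e : List ℕ} (h : Relation.ReflTransGen Step d e) (h7 : d.length ≤ 7)
    (hs : d.sum * 2 ^ (7 - d.length) < 57) :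
    (e.length ≤ 7 → e.sum * 2 ^ (7 - e.length) < 57) ∧ (e.length ≤ 8 → miss e = 2) ∧
      (e.length ≤ 9 → 1 ≤ miss e) := by
  have big : ∀ l : List ℕ, (∀ x ∈ l, x < 57) → miss l = 2 := by
    intro l hl
    have h1 : 57 ∉ l := fun h => absurd (hl _ h) (by omega)
    have h2 : 62 ∉ l := fun h => absurd (hl _ h) (by omega)
    simp [miss, h1, h2]
  have sm : ∀ l : List ℕ, l.sum * 2 ^ (7 - l.length) < 57 → l.sum < 57 := fun l hl =>
    lt_of_le_of_lt (Nat.le_mul_of_pos_right _ (by positivity)) hl
  induction h with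
  | refl =>
    have := big d fun x hx => lt_of_le_of_lt (List.le_sum_of_mem hx) (sm d hs)
    exact ⟨fun _ => hs, fun _ => this, fun _ => by omega⟩
  | @tail c e _ s ih =>
    have hl := step_len s
    have hm := step_miss s
    obtain ⟨t, t1, t2, t3⟩ := step_sum s
    have k8 : e.length ≤ 8 → miss e = 2 := by
      intro h8
      have := sm c (ih.1 (by omega))
      refine big e fun x hx => ?_
      rcases t3 x hx with h | h
      · exact lt_of_le_of_lt (List.le_sum_of_mem h) this
      · omega
    refine ⟨fun h => ?_, k8, fun h => ?_⟩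
    · have := ih.1 (by omega)
      have e1 : 7 - c.length = (7 - e.length) + 1 := by omega
      rw [e1, pow_succ] at this
      calc e.sum * 2 ^ (7 - e.length) ≤ (c.sum * 2) * 2 ^ (7 - e.length) :=
            Nat.mul_le_mul_right _ (by omega)
        _ = c.sum * (2 ^ (7 - e.length) * 2) := by ring
        _ < 57 := this
    · have := ih.2.1 (by omega); omega

lemma chk_sound : ∀ (k : ℕ) (d : List ℕ), d.length + k = 9 → chk k d = true →
    ∀ e, Relation.ReflTransGen Step d e → e.length ≤ 9 → 0 < miss e := by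
  intro k
  induction k with
  | zero =>
    intro d hd h e he h9
    have := rtg_miss he
    simp only [chk, decide_eq_true_eq] at h
    omega
  | succ k ih =>
    intro d hd h e he h9
    simp only [chk, Bool.or_eq_true, decide_eq_true_eq, Bool.and_eq_true, List.all_eq_true] at h
    rcases h with (h | h) | h
    · have := rtg_miss he; omega
    · exact (rtg_small he h.1 h.2).2.2 h9
    · rcases he.cases_head with rfl | ⟨c, hc, hce⟩
      · exact h.1
      · have hl := step_len hc
        obtain ⟨blk, _, hb, hc'⟩ := hc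
        have hm : blk.sum ∈ sums d := by
          obtain ⟨t, h1, h2⟩ := List.infix_iff_prefix_suffix.1 hb
          simp only [sums, List.mem_map, List.mem_flatMap, List.mem_tails, List.mem_inits]
          exact ⟨blk, ⟨t, h2, h1⟩, rfl⟩
        rcases hc' with rfl | rfl
        · exact ih _ (by omega) (h.2 _ hm).1 e hce h9
        · exact ih _ (by omega) (h.2 _ hm).2 e hce h9

lemma chk_ok : chk 7 [1, 1] = true := by decide +kernel

lemma reg8 : Relation.ReflTransGen Step [1, 1] [62, 32, 16, 8, 4, 2, 1, 1] := by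
  refine .tail (.tail (.tail (.tail (.tail (.single (b := [2, 1, 1]) ⟨[1, 1], by simp, by decide, .inl rfl⟩)
    (c := [4, 2, 1, 1]) ⟨[2, 1, 1], by simp, by decide, .inl rfl⟩)
    (c := [8, 4, 2, 1, 1]) ⟨[4, 2, 1, 1], by simp, by decide, .inl rfl⟩)
    (c := [16, 8, 4, 2, 1, 1]) ⟨[8, 4, 2, 1, 1], by simp, by decide, .inl rfl⟩)
    (c := [32, 16, 8, 4, 2, 1, 1]) ⟨[16, 8, 4, 2, 1, 1], by simp, by decide, .inl rfl⟩)
    ⟨[32, 16, 8, 4, 2], by simp, by decide, .inl rfl⟩

lemma reg10 : Relation.ReflTransGen Step [1, 1] [57, 62, 32, 16, 8, 4, 2, 1, 1, 56] :=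
  .tail (.tail reg8 (c := [62, 32, 16, 8, 4, 2, 1, 1, 56]) ⟨[32, 16, 8], by simp, by decide, .inr rfl⟩)
    ⟨[1, 56], by simp, by decide, .inl rfl⟩

theorem result : ¬ ∀ k₁ k₂ : ℕ, 0 < k₁ → k₁ ≤ k₂ → b [k₁, k₂] ≤ b [k₂] + 1 := by
  intro h
  have h1 : b [62] ≤ 8 := Nat.sInf_le ⟨_, Or.inr reg8, rfl, [62], .refl _, by decide⟩
  have h2 : 10 ≤ b [57, 62] := by
    refine le_csInf ⟨10, _, Or.inr reg10, rfl, [57, 62], .refl _, by decide⟩ ?_
    rintro n ⟨d, hd, rfl, p, hp, hs⟩
    have m1 : 57 ∈ d := hs.subset (hp.symm.subset (by simp))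
    have m2 : 62 ∈ d := hs.subset (hp.symm.subset (by simp))
    rcases hd with rfl | hd
    · simp at m1
    · by_contra hlt
      have := chk_sound 7 [1, 1] rfl chk_ok d hd (by omega)
      simp [miss, m1, m2] at this
  have := h 57 62 (by norm_num) (by norm_num)
  omega

end Pool.Agent.Results.MP_8dcfbf_co.Counter
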